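import Pool.Agent.W610.HY.Stm

set_option autoImplicit false

namespace Pool.Agent.W60.HY.LIM

open Pool.Agent.W610.HY
open MeasureTheory Set Metric Filter Topology

theorem hh_diff (p : ℕ → Polynomial ℂ) (n : ℕ) : Differentiable ℂ (hh p n) := by
  unfold hh
  apply Differentiable.cexp
  apply Differentiable.fun_neg
  exact Differentiable.fun_sum fun k _ => (p k).differentiable

theorem hh_norm (p : ℕ → Polynomial ℂ) (n : ℕ) (z : ℂ) :
    ‖hh p n z‖ = Real.exp (-(∑ k ∈ Finset.range n, ((p k).eval z).re)) := by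
  unfold hh
  rw [Complex.norm_exp, Complex.neg_re, Complex.re_sum]

theorem hh_anti (p : ℕ → Polynomial ℂ) (hp : ∀ k (z : ℂ), ‖z‖ = 1 → 0 ≤ ((p k).eval z).re)
    {n m : ℕ} (h : n ≤ m) {z : ℂ} (hz : ‖z‖ = 1) : ‖hh p m z‖ ≤ ‖hh p n z‖ := by
  rw [hh_norm, hh_norm]
  apply Real.exp_le_exp.2
  apply neg_le_neg
  apply Finset.sum_le_sum_of_subset_of_nonneg
  · intro k hk
    rw [Finset.mem_range] at hk ⊢
    omega
  · intro k _ _
    exact hp k z hz

theorem hh_le_one (p : ℕ → Polynomial ℂ) (hp : ∀ k (z : ℂ), ‖z‖ = 1 → 0 ≤ ((p k).eval z).re)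
    (n : ℕ) {z : ℂ} (hz : ‖z‖ = 1) : ‖hh p n z‖ ≤ 1 := by
  have h := hh_anti p hp (Nat.zero_le n) hz
  rw [hh_norm p 0] at h
  simpa using h

theorem circ_norm (θ : ℝ) : ‖circleMap 0 1 θ‖ = 1 := by
  rw [norm_circleMap_zero]
  simp

theorem main (hMEAN : MEAN) (hLTWO : LTWO) : LIM := by
  intro p him hre hsum
  have hpi : (0 : ℝ) < Real.pi := Real.pi_pos
  set a : ℕ → ℝ := fun k => ((p k).eval 0).re with ha
  -- nonnegativity at the origin
  have ha0 : ∀ k, 0 ≤ a k := by
    intro k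
    have h1 := (hMEAN (fun z => (p k).eval z) (p k).differentiable).1
    have hint : IntervalIntegrable (fun θ => (p k).eval (circleMap 0 1 θ)) volume 0
        (2 * Real.pi) :=
      ((p k).continuous.comp (continuous_circleMap 0 1)).intervalIntegrable _ _
    have h2 : (∫ θ in (0:ℝ)..(2 * Real.pi), ((p k).eval (circleMap 0 1 θ)).re) =
        (∫ θ in (0:ℝ)..(2 * Real.pi), (p k).eval (circleMap 0 1 θ)).re := by
      have := Complex.reCLM.intervalIntegral_comp_comm hint
      simpa using this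
    have h3 : 0 ≤ ∫ θ in (0:ℝ)..(2 * Real.pi), ((p k).eval (circleMap 0 1 θ)).re := by
      apply intervalIntegral.integral_nonneg (by positivity)
      intro θ _
      exact hre k _ (circ_norm θ)
    rw [h2, h1] at h3
    have h4 : ((2 : ℂ) * Real.pi * (p k).eval 0).re = 2 * Real.pi * a k := by
      have : (2 : ℂ) * Real.pi = ((2 * Real.pi : ℝ) : ℂ) := by push_cast; rfl
      rw [this, Complex.re_ofReal_mul]
    rw [h4] at h3
    have h5 : 0 < 2 * Real.pi := by positivity
    exact nonneg_of_mul_nonneg_right h3 h5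
  set F : ℕ → ℝ → ℂ := fun n θ => hh p n (circleMap 0 1 θ) with hF
  have hFc : ∀ n, Continuous (F n) := fun n =>
    (hh_diff p n).continuous.comp (continuous_circleMap 0 1)
  have hF1 : ∀ n θ, ‖F n θ‖ ≤ 1 := fun n θ => hh_le_one p hre n (circ_norm θ)
  set μ : Measure ℝ := volume.restrict (Ioc (0:ℝ) (2 * Real.pi)) with hμ
  have hfin : IsFiniteMeasure μ := by
    rw [hμ]
    infer_instance
  have hle : (0 : ℝ) ≤ 2 * Real.pi := by positivity
  have hMem : ∀ n m, MemLp (F n - F m) 2 μ := by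
    intro n m
    refine MemLp.of_bound ((hFc n).sub (hFc m)).aestronglyMeasurable 2 (ae_of_all _ fun θ => ?_)
    have := norm_sub_le (F n θ) (F m θ)
    have h1 := hF1 n θ
    have h2 := hF1 m θ
    simp only [Pi.sub_apply]
    linarith
  -- the L2 distance
  set S : ℕ → ℝ := fun n => ∑ k ∈ Finset.range n, a k with hS
  have hL2 : ∀ n m, n ≤ m → ∫ θ, ‖(F m - F n) θ‖ ^ 2 ∂μ ≤ 4 * Real.pi * (S m - S n) := by
    intro n m hnm
    have h1 := hLTWO p him hre n m hnm
    rw [intervalIntegral.integral_of_le hle, Finset.sum_Ico_eq_sub _ hnm] at h1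
    exact h1
  have hcau : ∀ ε : ℝ, 0 < ε → ∃ N, ∀ m ≥ N, ∀ n ≥ N, dist (S m) (S n) < ε :=
    Metric.cauchySeq_iff.1 hsum.hasSum.tendsto_sum_nat.cauchySeq
  obtain ⟨φ, hφ, hφ2⟩ := Filter.extraction_forall_of_eventually'
    (P := fun j N => ∀ m ≥ N, ∀ n ≥ N, dist (S m) (S n) < (1 / 4) ^ j / (4 * Real.pi)) (by
      intro j
      obtain ⟨N, hN⟩ := hcau ((1 / 4) ^ j / (4 * Real.pi)) (by positivity)
      exact ⟨N, fun k hk m hm n hn => hN m (le_trans hk hm) n (le_trans hk hn)⟩)
  have key : ∀ N i j : ℕ, N ≤ i → i ≤ j →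
      eLpNorm (F (φ j) - F (φ i)) 2 μ < ENNReal.ofReal ((1 / 2) ^ N) := by
    intro N i j hNi hij
    rw [(hMem (φ j) (φ i)).eLpNorm_eq_integral_rpow_norm two_ne_zero ENNReal.ofNat_ne_top]
    rw [ENNReal.ofReal_lt_ofReal_iff (by positivity)]
    have h1 := hL2 (φ i) (φ j) (hφ.monotone hij)
    have h2 := hφ2 N (φ j) (hφ.monotone (hNi.trans hij)) (φ i) (hφ.monotone hNi)
    rw [Real.dist_eq] at h2
    have h3 : S (φ j) - S (φ i) < (1 / 4) ^ N / (4 * Real.pi) := lt_of_le_of_lt (le_abs_self _) h2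
    have h4 : 4 * Real.pi * (S (φ j) - S (φ i)) < (1 / 4) ^ N := by
      rw [lt_div_iff₀ (by positivity)] at h3
      linarith
    have h5 : ∫ θ, ‖(F (φ j) - F (φ i)) θ‖ ^ (2 : ENNReal).toReal ∂μ < (1 / 4) ^ N := by
      have h6 : (2 : ENNReal).toReal = ((2 : ℕ) : ℝ) := by simp
      rw [h6]
      simp only [Real.rpow_natCast]
      exact lt_of_le_of_lt h1 h4
    have h7 : (0 : ℝ) ≤ ∫ θ, ‖(F (φ j) - F (φ i)) θ‖ ^ (2 : ENNReal).toReal ∂μ :=
      integral_nonneg fun θ => Real.rpow_nonneg (norm_nonneg _) _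
    have h8 := Real.rpow_lt_rpow h7 h5 (show (0 : ℝ) < (2 : ENNReal).toReal⁻¹ by simp)
    refine lt_of_lt_of_eq h8 ?_
    have h9 : ((1 : ℝ) / 4) ^ N = ((1 / 2) ^ N) ^ 2 := by
      rw [← pow_mul, mul_comm, pow_mul]
      norm_num
    have h10 : (2 : ENNReal).toReal⁻¹ = (1 / 2 : ℝ) := by simp
    rw [h9, h10, ← Real.sqrt_eq_rpow, Real.sqrt_sq (by positivity)]
  have hae : ∀ᵐ θ ∂μ, ∃ l : ℂ, Tendsto (fun j => F (φ j) θ) atTop (𝓝 l) := by
    refine Lp.ae_tendsto_of_cauchy_eLpNorm (p := 2) (B := fun N => ENNReal.ofReal ((1 / 2) ^ N))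
      (fun j => (hFc (φ j)).aestronglyMeasurable) (by norm_num) ?_ ?_
    · exact summable_geometric_two.tsum_ofReal_ne_top
    · intro N i j hi hj
      rcases le_total i j with hij | hij
      · rw [eLpNorm_sub_comm]
        exact key N i j hi hij
      · exact key N j i hj hij
  obtain ⟨h, hhm, hlim⟩ := measurable_limit_of_tendsto_metrizable_ae
    (fun j => (hFc (φ j)).aemeasurable) hae
  refine ⟨h, hhm, ?_, ?_, ?_⟩
  · filter_upwards [hlim] with θ hθ n
    refine le_of_tendsto hθ.norm ?_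
    filter_upwards [eventually_ge_atTop n] with j hj
    exact hh_anti p hre (hj.trans (hφ.id_le j)) (circ_norm θ)
  · have htend : Tendsto (fun j => ∫ θ, F (φ j) θ ∂μ) atTop (𝓝 (∫ θ, h θ ∂μ)) := by
      refine tendsto_integral_of_dominated_convergence (fun _ => (1 : ℝ))
        (fun j => (hFc (φ j)).aestronglyMeasurable) (integrable_const _)
        (fun j => ae_of_all _ fun θ => hF1 _ θ) hlim
    have hval : ∀ n, ‖∫ θ, F n θ ∂μ‖ = 2 * Real.pi * Real.exp (-(S n)) := by
      intro n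
      have h1 := (hMEAN (hh p n) (hh_diff p n)).1
      rw [intervalIntegral.integral_of_le hle] at h1
      rw [show (∫ θ, F n θ ∂μ) = 2 * Real.pi * hh p n 0 from h1, norm_mul, hh_norm]
      have h2 : ‖(2 : ℂ) * Real.pi‖ = 2 * Real.pi := by
        rw [norm_mul, Complex.norm_real, Real.norm_of_nonneg hpi.le]
        norm_num
      rw [h2]
    have hge : 2 * Real.pi * Real.exp (-(∑' k, a k)) ≤ ‖∫ θ, h θ ∂μ‖ := by
      refine ge_of_tendsto htend.norm (Eventually.of_forall fun j => ?_)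
      rw [hval]
      apply mul_le_mul_of_nonneg_left _ (by positivity)
      apply Real.exp_le_exp.2
      apply neg_le_neg
      exact hsum.sum_le_tsum _ fun k _ => ha0 k
    rw [intervalIntegral.integral_of_le hle]
    intro h0
    have h1 : ‖∫ θ, h θ ∂μ‖ = 0 := by
      rw [show (∫ θ, h θ ∂μ) = 0 from h0, norm_zero]
    rw [h1] at hge
    have h2 : 0 < 2 * Real.pi * Real.exp (-(∑' k, a k)) := by positivity
    linarith
  · intro w hw
    have hne : ∀ θ, circleMap 0 1 θ - w ≠ 0 := by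
      intro θ h0
      rw [sub_eq_zero] at h0
      have := circ_norm θ
      rw [h0] at this
      linarith
    have hker : Continuous fun θ => circleMap 0 1 θ / (circleMap 0 1 θ - w) :=
      (continuous_circleMap 0 1).div ((continuous_circleMap 0 1).sub continuous_const) hne
    have hkb : ∀ θ, ‖circleMap 0 1 θ / (circleMap 0 1 θ - w)‖ ≤ 1 / (‖w‖ - 1) := by
      intro θ
      rw [norm_div, circ_norm]
      apply one_div_le_one_div_of_le (by linarith)
      have h1 := norm_sub_norm_le w (circleMap 0 1 θ)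
      rw [circ_norm, norm_sub_rev] at h1
      exact h1
    have htend : Tendsto (fun j => ∫ θ, F (φ j) θ * (circleMap 0 1 θ / (circleMap 0 1 θ - w)) ∂μ)
        atTop (𝓝 (∫ θ, h θ * (circleMap 0 1 θ / (circleMap 0 1 θ - w)) ∂μ)) := by
      refine tendsto_integral_of_dominated_convergence (fun _ => 1 / (‖w‖ - 1))
        (fun j => ((hFc (φ j)).mul hker).aestronglyMeasurable) (integrable_const _)
        (fun j => ae_of_all _ fun θ => ?_) ?_
      · rw [norm_mul]
        calc ‖F (φ j) θ‖ * ‖circleMap 0 1 θ / (circleMap 0 1 θ - w)‖ ≤ 1 * (1 / (‖w‖ - 1)) :=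
              mul_le_mul (hF1 _ θ) (hkb θ) (norm_nonneg _) zero_le_one
          _ = _ := one_mul _
      · filter_upwards [hlim] with θ hθ
        exact hθ.mul_const _
    have hz : ∀ j, ∫ θ, F (φ j) θ * (circleMap 0 1 θ / (circleMap 0 1 θ - w)) ∂μ = 0 := by
      intro j
      have h1 := (hMEAN (hh p (φ j)) (hh_diff p (φ j))).2 w hw
      rw [intervalIntegral.integral_of_le hle] at h1
      exact h1
    simp only [hz] at htend
    rw [intervalIntegral.integral_of_le hle]
    exact (tendsto_nhds_unique htend tendsto_const_nhds)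

end Pool.Agent.W60.HY.LIM
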